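import Pool.Agent.H61.DW.UP
import Pool.Agent.H29.BH.Targets2

/-!
# (UR) unfolding
-/

set_option autoImplicit false

open NumberField NumberField.InfinitePlace NumberField.Units
  NumberField.Units.dirichletUnitTheorem MeasureTheory Set Filter Complex
open scoped nonZeroDivisors ENNReal

namespace Pool.Agent.H92.BH

open Pool.Agent.H25.HK Pool.Agent.H23.LB Pool.Agent.H23.LC Pool.Agent.H29.DW Pool.Agent.H29.BH
open Pool.Agent.H28.RC (Rep ft idl)
open Pool.Agent.H61.DW (wt_sum wt_fin sum_cls class_inf)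
open Pool.Agent.H35.GLB (An_fin zl norm_idl yM_zl yc_cont)

section
open scoped Classical

variable {K : Type} [Field K] [NumberField K]

/-- the kernel as a function of the logarithmic coordinates -/
noncomputable def Pk1 (y : InfinitePlace K → ℝ) : ℝ :=
  ∏ v : InfinitePlace K, (pk (rv v) ((Real.exp (y v / 2) : ℝ) : ℂ)).toReal

theorem Rl_sy (v : InfinitePlace K) (x : K) (y : InfinitePlace K → ℝ) :
    Rl (rv v) (sy y x v) := by
  have h := Rl_wv v x y (ω := fun _ => 1) ⟨fun v => by simp, fun v _ => by simp⟩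
  unfold wv at h
  simp only [mul_one] at h
  exact h

omit [NumberField K] in
theorem norm_sy (v : InfinitePlace K) (x : K) (hx : x ≠ 0) (y : InfinitePlace K → ℝ) :
    ‖sy y x v‖ = Real.exp ((y v + 2 * Real.log (v x)) / 2) := by
  have hv : 0 < v x := by
    rw [InfinitePlace.pos_iff]
    exact hx
  unfold sy
  rw [norm_mul, Complex.norm_real, Real.norm_eq_abs, abs_of_pos (Real.exp_pos _),
    InfinitePlace.norm_embedding_eq, add_div, Real.exp_add,
    mul_div_cancel_left₀ _ (two_ne_zero), Real.exp_log hv]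
  ring

theorem pk_sy (hPK : A_PK) (v : InfinitePlace K) (x : K) (hx : x ≠ 0)
    (y : InfinitePlace K → ℝ) : pk (rv v) (sy y x v) =
      pk (rv v) ((Real.exp ((y v + 2 * Real.log (v x)) / 2) : ℝ) : ℂ) := by
  have h1 := norm_sy v x hx y
  set r : ℝ := Real.exp ((y v + 2 * Real.log (v x)) / 2) with hr
  have hr0 : 0 < r := Real.exp_pos _
  have hrc : (r : ℂ) ≠ 0 := by exact_mod_cast hr0.ne'
  have h2 : sy y x v = (sy y x v / (r : ℂ)) * (r : ℂ) := by
    rw [div_mul_cancel₀ _ hrc]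
  rw [h2]
  refine hPK.2.2.2.1 (rv v) (sy y x v / (r : ℂ)) (r : ℂ) ?_ ?_ ?_
  · intro hv
    have h3 := Rl_sy v x y hv
    rw [Complex.div_ofReal_im, h3, zero_div]
  · intro _
    exact Complex.ofReal_im _
  · rw [norm_div, h1, Complex.norm_real, Real.norm_eq_abs, abs_of_pos hr0, div_self hr0.ne']

theorem PK_sy (hPK : A_PK) (x : K) (hx : x ≠ 0) (y : InfinitePlace K → ℝ) :
    PK (sy y x) = Pk1 (fun v => y v + 2 * Real.log (v x)) := by
  unfold PK Pk1
  exact Finset.prod_congr rfl fun v _ => by rw [pk_sy hPK v x hx y]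

theorem pk_le (hPK : A_PK) (r : Bool) (w : ℂ) : (pk r w).toReal ≤ 1 := by
  have h := ENNReal.toReal_mono ENNReal.one_ne_top (hPK.2.1 r w)
  rwa [ENNReal.toReal_one] at h

theorem Pk1_nonneg (y : InfinitePlace K → ℝ) : 0 ≤ Pk1 y :=
  Finset.prod_nonneg fun _ _ => ENNReal.toReal_nonneg

theorem Pk1_le (hPK : A_PK) (y : InfinitePlace K → ℝ) : Pk1 y ≤ 1 :=
  Finset.prod_le_one (fun _ _ => ENNReal.toReal_nonneg) fun _ _ => pk_le hPK _ _

theorem Pk1_meas (hPK : A_PK) : Measurable (Pk1 (K := K)) := by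
  unfold Pk1
  refine Finset.measurable_prod _ fun v _ => ?_
  refine ENNReal.measurable_toReal.comp ((hPK.1 (rv v)).comp ?_)
  fun_prop

theorem Pk1_ne (hPK : A_PK) (y : InfinitePlace K → ℝ) (h : Pk1 y ≠ 0) (v : InfinitePlace K) :
    |y v| ≤ 2 := by
  unfold Pk1 at h
  have h1 := Finset.prod_ne_zero_iff.1 h v (Finset.mem_univ v)
  have h2 : pk (rv v) ((Real.exp (y v / 2) : ℝ) : ℂ) ≠ 0 := fun h3 => h1 (by rw [h3]; rfl)
  have h4 := hPK.2.2.1 _ _ h2
  rw [Complex.norm_real, Real.norm_eq_abs, abs_of_pos (Real.exp_pos _)] at h4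
  have h5 := Real.exp_one_gt_d9
  have h6 : y v / 2 < 1 := by
    rw [← Real.exp_lt_exp]
    linarith [h4.2]
  have h7 : -1 < y v / 2 := by
    rw [← Real.exp_lt_exp]
    have h8 : Real.exp (-1) * Real.exp 1 = 1 := by
      rw [← Real.exp_add]; simp
    have h9 := Real.exp_pos (-1 : ℝ)
    nlinarith [h4.1]
  rw [abs_le]
  constructor <;> linarith

variable (K)

/-- the region of the logarithmic coordinates -/
def Rg (δ : ℝ) : Set (logSpace K × ℝ) := {p | ∀ v : InfinitePlace K, |yc K p.2 p.1 v| ≤ δ}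

theorem Rg_meas (δ : ℝ) : MeasurableSet (Rg K δ) := by
  have h1 : Rg K δ = ⋂ v : InfinitePlace K, {p : logSpace K × ℝ | |yc K p.2 p.1 v| ≤ δ} := by
    ext q
    simp only [mem_iInter]
    rfl
  rw [h1]
  refine MeasurableSet.iInter fun v => measurableSet_le ?_ measurable_const
  have h2 := (continuous_apply v).comp (yc_cont K)
  exact (continuous_abs.comp h2).measurable

/-- the integral of the kernel -/
noncomputable def cPs : ℝ := ∫ p : logSpace K × ℝ, Pk1 (yc K p.2 p.1)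

theorem Pc_meas (hPK : A_PK) : Measurable (fun p : logSpace K × ℝ => Pk1 (yc K p.2 p.1)) :=
  (Pk1_meas hPK).comp (yc_cont K).measurable

theorem Pc_bd (hPK : A_PK) (p : logSpace K × ℝ) :
    ‖Pk1 (yc K p.2 p.1)‖ₑ ≤ (Rg K 2).indicator 1 p := by
  by_cases h : Pk1 (yc K p.2 p.1) = 0
  · rw [h, enorm_zero]
    exact bot_le
  · have h1 : p ∈ Rg K 2 := fun v => Pk1_ne hPK _ h v
    rw [indicator_of_mem h1, Real.enorm_of_nonneg (Pk1_nonneg _), Pi.one_apply,
      ← ENNReal.ofReal_one]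
    exact ENNReal.ofReal_le_ofReal (Pk1_le hPK _)

theorem Rg_fin (hVL : U_VL) : volume (Rg K 2) ≠ ∞ := by
  obtain ⟨c, C, -, -, h⟩ := hVL (Module.finrank ℚ K)
  exact ne_top_of_le_ne_top ENNReal.ofReal_ne_top (h K rfl 2 (by norm_num) (by norm_num)).2

theorem Pc_int (hPK : A_PK) (hVL : U_VL) :
    Integrable (fun p : logSpace K × ℝ => Pk1 (yc K p.2 p.1)) := by
  refine ⟨(Pc_meas K hPK).aestronglyMeasurable, ?_⟩
  refine lt_of_le_of_lt (lintegral_mono (Pc_bd K hPK)) ?_
  rw [lintegral_indicator_one (Rg_meas K 2)]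
  exact lt_top_iff_ne_top.2 (Rg_fin K hVL)

theorem np_le : np K ≤ Module.finrank ℚ K := by
  have h := InfinitePlace.card_add_two_mul_card_eq_rank K
  unfold np
  omega

/-- the integral of the kernel is not small -/
theorem cPs_ge (hPK : A_PK) (hVL : U_VL) : ∀ n : ℕ, ∃ c : ℝ, 0 < c ∧ ∀ (K : Type) [Field K]
    [NumberField K], Module.finrank ℚ K = n → c ≤ cPs K := by
  intro n
  obtain ⟨c₁, C₁, hc₁, -, hV⟩ := hVL n
  obtain ⟨c₂, hc₂, hP⟩ := hPK.2.2.2.2
  set c₃ : ℝ := min c₂ 1 with hc₃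
  have hc₃0 : 0 < c₃ := lt_min hc₂ one_pos
  have hc₃1 : c₃ ≤ 1 := min_le_right _ _
  refine ⟨c₃ ^ n * (c₁ * (1 / 20) ^ n), by positivity, ?_⟩
  intro K _ _ hn
  have hnp : np K ≤ n := hn ▸ np_le K
  -- the lower bound on the small region
  have h1 : ∀ p : logSpace K × ℝ, (Rg K (1 / 20)).indicator (fun _ => c₃ ^ n) p ≤
      Pk1 (yc K p.2 p.1) := by
    intro p
    by_cases h : p ∈ Rg K (1 / 20)
    · rw [indicator_of_mem h]
      unfold Pk1
      have h2 : ∀ v : InfinitePlace K,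
          c₃ ≤ (pk (rv v) ((Real.exp (yc K p.2 p.1 v / 2) : ℝ) : ℂ)).toReal := by
        intro v
        have h3 := abs_le.1 (h v)
        set a : ℝ := yc K p.2 p.1 v with ha
        have h4 : 19 / 20 ≤ Real.exp (a / 2) := by
          have := Real.add_one_le_exp (a / 2)
          linarith [h3.1]
        have h5 : Real.exp (a / 2) ≤ 21 / 20 := by
          have h6 := Real.add_one_le_exp (-(a / 2))
          have h7 : Real.exp (-(a / 2)) * Real.exp (a / 2) = 1 := by
            rw [← Real.exp_add]; simp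
          have h8 := Real.exp_pos (a / 2)
          have h9 : 39 / 40 ≤ Real.exp (-(a / 2)) := by linarith [h3.2]
          nlinarith
        have h6 := hP (rv v) ((Real.exp (a / 2) : ℝ) : ℂ) (fun _ => Complex.ofReal_im _)
          (by rw [Complex.norm_real, Real.norm_eq_abs, abs_of_pos (Real.exp_pos _)]; exact h4)
          (by rw [Complex.norm_real, Real.norm_eq_abs, abs_of_pos (Real.exp_pos _)]; exact h5)
        have h7 : pk (rv v) ((Real.exp (a / 2) : ℝ) : ℂ) ≠ ∞ :=
          ne_top_of_le_ne_top ENNReal.one_ne_top (hPK.2.1 _ _)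
        have h8 := ENNReal.toReal_mono h7 h6
        rw [ENNReal.toReal_ofReal hc₂.le] at h8
        exact (min_le_left _ _).trans h8
      have h10 : Fintype.card (InfinitePlace K) ≤ n := by
        have h11 : Fintype.card (InfinitePlace K) = np K := by
          rw [InfinitePlace.card_eq_nrRealPlaces_add_nrComplexPlaces]
          rfl
        rw [h11]
        exact hnp
      calc c₃ ^ n ≤ c₃ ^ Fintype.card (InfinitePlace K) :=
            pow_le_pow_of_le_one hc₃0.le hc₃1 h10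
        _ = ∏ _v : InfinitePlace K, c₃ := by rw [Finset.prod_const, Finset.card_univ]
        _ ≤ _ := Finset.prod_le_prod (fun _ _ => hc₃0.le) fun v _ => h2 v
    · rw [indicator_of_notMem h]
      exact Pk1_nonneg _
  have hfin : volume (Rg K (1 / 20)) ≠ ∞ :=
    ne_top_of_le_ne_top ENNReal.ofReal_ne_top
      (hV K hn (1 / 20) (by norm_num) (by norm_num)).2
  have h3 : ∫ p : logSpace K × ℝ, (Rg K (1 / 20)).indicator (fun _ => c₃ ^ n) p ≤ cPs K := by
    unfold cPs
    refine integral_mono ?_ (Pc_int K hPK hVL) h1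
    exact (integrable_indicator_iff (Rg_meas K _)).2 (integrableOn_const hfin)
  refine le_trans ?_ h3
  rw [integral_indicator_const _ (Rg_meas K _), smul_eq_mul, mul_comm]
  refine mul_le_mul_of_nonneg_right ?_ (by positivity)
  have h4 := (hV K hn (1 / 20) (by norm_num) (by norm_num)).1
  have h5 := ENNReal.toReal_mono hfin h4
  rw [ENNReal.toReal_ofReal (by positivity)] at h5
  refine le_trans ?_ h5
  refine mul_le_mul_of_nonneg_left ?_ hc₁.le
  exact pow_le_pow_of_le_one (by norm_num) (by norm_num) hnp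

variable {K}

/-- the kernel is measurable in the coordinates -/
theorem PKm (hPK : A_PK) (M : FI K) (x : K) (hx : x ≠ 0) :
    Measurable (fun p : logSpace K × ℝ => PK (sy (yM K M p.2 p.1) x)) := by
  simp only [PK_sy hPK x hx]
  refine (Pk1_meas hPK).comp ?_
  have h1 : Continuous (fun p : logSpace K × ℝ =>
      ((p.1, p.2 - Real.log (FractionalIdeal.absNorm M : ℝ)) : logSpace K × ℝ)) := by fun_prop
  have h2 := (yc_cont K).comp h1
  have h3 : Continuous (fun p : logSpace K × ℝ => yM K M p.2 p.1) := h2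
  exact (h3.add continuous_const).measurable

/-- (UR) unfolding. -/
theorem pf_P_UR (hPK : A_PK) (hVL : U_VL) : P_UR := by
  intro n hn
  obtain ⟨c₀, hc₀, hcP⟩ := cPs_ge hPK hVL n
  refine ⟨max 1 c₀⁻¹, le_max_left _ _, ?_⟩
  intro K _ _ hK f hf χ ι _ M hM t v hv
  set β : Ideal (𝓞 K) → ℂ := fun J => χ.ψ J * v (Ideal.absNorm J) *
    (Ideal.absNorm J : ℂ) ^ (-(t * I : ℂ)) with hβ
  set A : ℝ := (volume (An K)).toReal with hA
  set γ : Ideal (𝓞 K) → ℝ≥0∞ := fun J => ‖v (Ideal.absNorm J)‖ₑ * volume (An K) with hγ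
  have hψ : ∀ J : Ideal (𝓞 K), ‖χ.ψ J‖ ≤ 1 := by
    intro J
    by_cases h1 : J = ⊥
    · rw [h1, χ.map_bot, norm_zero]
      exact zero_le_one
    · by_cases h2 : J ⊔ f = ⊤
      · exact (χ.norm_one J h1 h2).le
      · rw [χ.eq_zero J h2, norm_zero]
        exact zero_le_one
  have hβn : ∀ J : Ideal (𝓞 K), J ≠ ⊥ → ‖β J‖ ≤ ‖v (Ideal.absNorm J)‖ := by
    intro J hJ
    have hN : 0 < Ideal.absNorm J := by
      rw [Nat.pos_iff_ne_zero, Ne, Ideal.absNorm_eq_zero_iff]
      exact hJ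
    have h2 : ‖(Ideal.absNorm J : ℂ) ^ (-(t * I : ℂ))‖ = 1 := by
      rw [Complex.norm_natCast_cpow_of_pos hN]
      simp
    simp only [hβ]
    rw [norm_mul, norm_mul, h2, mul_one]
    exact mul_le_of_le_one_left (norm_nonneg _) (hψ _)
  have hβs : Summable (fun J : NZI K => β J.1) :=
    Summable.of_norm_bounded (wt_sum K v hv) fun J => hβn J.1 J.2
  have hAfin : volume (An K) ≠ ∞ := (An_fin K).ne
  have hc : ∀ c : ι, ∫ p in Fd K ×ˢ (univ : Set ℝ) ×ˢ An K,
      ∑' x : {x : K // x ∈ M c ∧ x ≠ 0}, β (idl K (M c) x.1) *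
        ((PK (sy (yM K (M c) p.2.1 p.1) x.1) : ℝ) : ℂ) =
      (torsionOrder K : ℂ) * (∑' J : {J : Ideal (𝓞 K) // Pri K (M c) J}, β J.1) *
        ∫ p : logSpace K × ℝ, ((A * Pk1 (yc K p.2 p.1) : ℝ) : ℂ) := by
    intro c
    have hL := hM.1 c
    have hfac : ∀ x ∈ M c, x ≠ 0 → ∀ z τ, PK (sy (yM K (M c) τ z) x) =
        Pk1 (yc K (τ + Real.log (Ideal.absNorm (idl K (M c) x))) ((1 : ℝ) • z + zl K x)) := by
      intro x hx hx0 z τ
      rw [PK_sy hPK x hx0, yM_zl K (M c) hL x hx hx0 τ z, one_smul]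
    let F : K → logSpace K × ℝ × (InfinitePlace K → ℝ) → ℂ := fun x p =>
      if x = 0 then 0 else β (idl K (M c) x) * ((PK (sy (yM K (M c) p.2.1 p.1) x) : ℝ) : ℂ)
    have hFe : ∀ x : K, x ≠ 0 → ∀ p, F x p =
        β (idl K (M c) x) * ((PK (sy (yM K (M c) p.2.1 p.1) x) : ℝ) : ℂ) :=
      fun x hx p => if_neg hx
    have hFm : ∀ x, Measurable (F x) := by
      intro x
      by_cases hx : x = 0
      · have : F x = fun _ => 0 := funext fun p => if_pos hx
        rw [this]
        exact measurable_const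
      · have : F x = fun p => β (idl K (M c) x) *
            ((PK (sy (yM K (M c) p.2.1 p.1) x) : ℝ) : ℂ) := funext fun p => if_neg hx
        rw [this]
        have h1 : Measurable (fun p : logSpace K × ℝ × (InfinitePlace K → ℝ) =>
            ((p.1, p.2.1) : logSpace K × ℝ)) := by fun_prop
        have h2 := (PKm hPK (M c) x hx).comp h1
        exact (Complex.measurable_ofReal.comp h2).const_mul _
    have h2 : ∫ p in Fd K ×ˢ (univ : Set ℝ) ×ˢ An K,
        ∑' x : {x : K // x ∈ M c ∧ x ≠ 0}, β (idl K (M c) x.1) *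
          ((PK (sy (yM K (M c) p.2.1 p.1) x.1) : ℝ) : ℂ) =
        ∫ p in Fd K ×ˢ (univ : Set ℝ) ×ˢ An K, ∑' x : {x : K // x ∈ M c ∧ x ≠ 0},
          F x p := by
      refine integral_congr_ae (ae_of_all _ fun p => ?_)
      exact tsum_congr fun x => (hFe x.1 x.2.2 p).symm
    rw [h2]
    have hPm := Pc_meas K hPK
    have hPi := Pc_int K hPK hVL
    refine class_inf 1 (Or.inl rfl) (M c) hL
      (fun p : logSpace K × ℝ => ((A * Pk1 (yc K p.2 p.1) : ℝ) : ℂ))
      (Complex.measurable_ofReal.comp (hPm.const_mul A)) ((hPi.const_mul A).ofReal)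
      ((Rg K 2).indicator 1) (measurable_one.indicator (Rg_meas K 2)) ?_ F hFm β γ ?_ ?_ ?_
    · rw [lintegral_indicator_one (Rg_meas K 2)]
      exact Rg_fin K hVL
    · simp only [hγ]
      rw [ENNReal.tsum_mul_right]
      exact ENNReal.mul_ne_top (wt_fin K v hv (M c)) hAfin
    · intro x hx hx0 z τ
      simp only [hFe x hx0]
      rw [hfac x hx hx0 z τ]
      rw [setIntegral_const]
      simp only [Measure.real, ← hA]
      rw [Complex.real_smul]
      push_cast
      ring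
    · intro x hx hx0 z τ
      simp only [hFe x hx0]
      rw [hfac x hx hx0 z τ, lintegral_const, Measure.restrict_apply_univ]
      have h4 := norm_idl K (M c) hL x hx hx0
      have h5 : ‖β (idl K (M c) x)‖ₑ ≤ ‖v (Ideal.absNorm (idl K (M c) x))‖ₑ := by
        rw [← ofReal_norm, ← ofReal_norm]
        exact ENNReal.ofReal_le_ofReal (hβn _ h4.1)
      have h6 := Pc_bd K hPK ((1 : ℝ) • z + zl K x,
        τ + Real.log (Ideal.absNorm (idl K (M c) x)))
      rw [enorm_mul]
      have h7 : ∀ a : ℝ, ‖(a : ℂ)‖ₑ = ‖a‖ₑ := by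
        intro a
        rw [← ofReal_norm, ← ofReal_norm, Complex.norm_real]
      rw [h7]
      calc _ ≤ ‖v (Ideal.absNorm (idl K (M c) x))‖ₑ * (Rg K 2).indicator 1
            ((1 : ℝ) • z + zl K x, τ + Real.log (Ideal.absNorm (idl K (M c) x))) *
              volume (An K) := mul_le_mul' (mul_le_mul' h5 h6) le_rfl
        _ = _ := by
          simp only [hγ]
          ring
  -- the integral over the angles
  have hS : ∀ c : ι, ‖∫ p in Fd K ×ˢ (univ : Set ℝ) ×ˢ An K,
      ∑' x : {x : K // x ∈ M c ∧ x ≠ 0}, β (idl K (M c) x.1) *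
        ((PK (sy (yM K (M c) p.2.1 p.1) x.1) : ℝ) : ℂ)‖ₑ ≤
      volume (An K) * ∫⁻ z in Fd K, ∫⁻ τ : ℝ, ENNReal.ofReal
        ‖∑' x : {x : K // x ∈ M c ∧ x ≠ 0}, β (idl K (M c) x.1) *
          ((PK (sy (yM K (M c) τ z) x.1) : ℝ) : ℂ)‖ := by
    intro c
    refine (enorm_integral_le_lintegral_enorm _).trans ?_
    have h1 : (volume.restrict (Fd K ×ˢ (univ : Set ℝ) ×ˢ An K) :
        Measure (logSpace K × ℝ × (InfinitePlace K → ℝ))) =
        (volume.restrict (Fd K)).prod ((volume : Measure ℝ).prod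
          ((volume : Measure (InfinitePlace K → ℝ)).restrict (An K))) := by
      rw [Measure.volume_eq_prod, Measure.volume_eq_prod, ← Measure.prod_restrict,
        ← Measure.prod_restrict, Measure.restrict_univ]
    rw [h1]
    refine (lintegral_prod_le _).trans ?_
    rw [← lintegral_const_mul' _ _ hAfin]
    refine lintegral_mono fun z => ?_
    refine (lintegral_prod_le _).trans ?_
    rw [← lintegral_const_mul' _ _ hAfin]
    refine lintegral_mono fun τ => ?_
    simp only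
    rw [lintegral_const, Measure.restrict_apply_univ, ← ofReal_norm, mul_comm]
  -- the value
  have hval : ∫ p : logSpace K × ℝ, ((A * Pk1 (yc K p.2 p.1) : ℝ) : ℂ) =
      ((A * cPs K : ℝ) : ℂ) := by
    rw [integral_complex_ofReal, integral_const_mul]
    rfl
  have hmain : ((torsionOrder K : ℂ) * ((A * cPs K : ℝ) : ℂ)) * ∑' J : NZI K, β J.1 =
      ∑ c, ∫ p in Fd K ×ˢ (univ : Set ℝ) ×ˢ An K,
      ∑' x : {x : K // x ∈ M c ∧ x ≠ 0}, β (idl K (M c) x.1) *
        ((PK (sy (yM K (M c) p.2.1 p.1) x.1) : ℝ) : ℂ) := by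
    rw [Finset.sum_congr rfl fun c _ => hc c, ← sum_cls K M hM β hβs, Finset.mul_sum, hval]
    refine Finset.sum_congr rfl fun c _ => ?_
    ring
  have hcK : c₀ ≤ cPs K := hcP K hK
  set Sg : ℝ≥0∞ := ∑ c, ∫⁻ z in Fd K, ∫⁻ τ : ℝ, ENNReal.ofReal
        ‖∑' x : {x : K // x ∈ M c ∧ x ≠ 0}, β (idl K (M c) x.1) *
          ((PK (sy (yM K (M c) τ z) x.1) : ℝ) : ℂ)‖ with hSg
  have hle : ENNReal.ofReal (A * c₀) * ENNReal.ofReal ‖∑' J : NZI K, β J.1‖ ≤
      volume (An K) * Sg := by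
    have h1 : ENNReal.ofReal (A * c₀) * ENNReal.ofReal ‖∑' J : NZI K, β J.1‖ ≤
        ‖((torsionOrder K : ℂ) * ((A * cPs K : ℝ) : ℂ)) * ∑' J : NZI K, β J.1‖ₑ := by
      rw [enorm_mul, ← ofReal_norm, ← ofReal_norm]
      refine mul_le_mul' (ENNReal.ofReal_le_ofReal ?_) le_rfl
      have hA0 : 0 ≤ A := ENNReal.toReal_nonneg
      have h2 : (1 : ℝ) ≤ torsionOrder K := by
        exact_mod_cast torsionOrder_pos K
      rw [norm_mul, Complex.norm_real, Complex.norm_natCast, Real.norm_eq_abs,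
        abs_of_nonneg (mul_nonneg hA0 (hc₀.le.trans hcK))]
      have h3 : A * c₀ ≤ A * cPs K := mul_le_mul_of_nonneg_left hcK hA0
      have h4 : 0 ≤ A * cPs K := mul_nonneg hA0 (hc₀.le.trans hcK)
      nlinarith
    refine h1.trans ?_
    rw [hmain, hSg, Finset.mul_sum]
    refine (enorm_sum_le _ _).trans ?_
    exact Finset.sum_le_sum fun c _ => hS c
  have hA0 : volume (An K) ≠ 0 := by
    unfold An
    rw [volume_pi, Measure.pi_pi]
    refine Finset.prod_ne_zero_iff.2 fun v _ => ?_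
    rw [Real.volume_Icc]
    have h1 : (0 : ℝ) < 2 * Real.pi - 0 := by
      have := Real.pi_pos
      linarith
    exact (ENNReal.ofReal_pos.2 h1).ne'
  have hA1 : ENNReal.ofReal A = volume (An K) := ENNReal.ofReal_toReal hAfin
  rw [ENNReal.ofReal_mul ENNReal.toReal_nonneg, hA1, mul_assoc,
    ENNReal.mul_le_mul_iff_right hA0 hAfin] at hle
  have hfin : ENNReal.ofReal ‖∑' J : NZI K, β J.1‖ ≤ ENNReal.ofReal (max 1 c₀⁻¹) * Sg := by
    have h1 : ENNReal.ofReal c₀⁻¹ * (ENNReal.ofReal c₀ * ENNReal.ofReal ‖∑' J : NZI K, β J.1‖) =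
        ENNReal.ofReal ‖∑' J : NZI K, β J.1‖ := by
      rw [← mul_assoc, ← ENNReal.ofReal_mul (inv_pos.2 hc₀).le, inv_mul_cancel₀ hc₀.ne',
        ENNReal.ofReal_one, one_mul]
    rw [← h1]
    exact mul_le_mul' (ENNReal.ofReal_le_ofReal (le_max_right _ _)) hle
  exact hfin

end

end Pool.Agent.H92.BH
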