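import Pool.Agent.H29.BH.Targets3
import Pool.Agent.H13.BH.P_IV

/-!
# Target R_IF: functions of the position
-/

set_option autoImplicit false

open NumberField NumberField.InfinitePlace NumberField.Units
  NumberField.Units.dirichletUnitTheorem MeasureTheory Set Filter Complex
open scoped nonZeroDivisors ENNReal

namespace Pool.Agent.H92.BH

open Pool.Agent.H25.HK Pool.Agent.H23.LB Pool.Agent.H23.LC Pool.Agent.H29.DW
open Pool.Agent.H28.RC (Rep ft idl)
open Pool.Agent.H29.BH
open Pool.Agent.H13.BH (lm lm_ne shy mem_lm mem_lm_inv idl_lm sg0 sy_mul norm_sg SS_lm)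

section

private lemma countable_K (K : Type) [Field K] [NumberField K] : Countable K := by
  have h1 := Algebraic.countable ℚ K
  have h2 : {x : K | IsAlgebraic ℚ x} = Set.univ :=
    Set.eq_univ_of_forall fun x => Algebra.IsAlgebraic.isAlgebraic x
  rw [h2] at h1
  exact Set.countable_univ_iff.1 h1

variable {K : Type} [Field K] [NumberField K]

private lemma mem_iff {l : K} (hl : l ≠ 0) {M : FI K} (h : K) : l * h ∈ lm l M ↔ h ∈ M := by
  constructor
  · intro hm
    have h1 := mem_lm_inv hl hm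
    rwa [← mul_assoc, inv_mul_cancel₀ hl, one_mul] at h1
  · exact fun hm => mem_lm l hm

private lemma nsy {l : K} (hl : l ≠ 0) (y : InfinitePlace K → ℝ) (h : K) (v : InfinitePlace K) :
    ‖sy y (l * h) v‖ = ‖sy (shy l y) h v‖ := by
  rw [sy_mul hl, norm_mul, norm_sg hl, one_mul]

private lemma nv_l {l : K} (hl : l ≠ 0) (y : InfinitePlace K → ℝ) (h : K) :
    nv y (l * h) = nv (shy l y) h := by
  unfold nv
  refine Finset.prod_congr rfl fun v _ => ?_
  rw [nsy hl]

private lemma msy (hYC : T_YC) (M : FI K) (h : K) (v : InfinitePlace K) :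
    Measurable (fun q : ℝ × logSpace K => sy (yM K M q.1 q.2) h v) := by
  have hc : Measurable (fun p : ℝ × logSpace K => yc K p.1 p.2) := (hYC K).2.2.2.2.1.measurable
  have hy : Measurable (fun p : ℝ × logSpace K => yM K M p.1 p.2) := by
    unfold yM
    exact hc.comp ((measurable_fst.sub_const _).prodMk measurable_snd)
  unfold sy
  exact measurable_const.mul (Complex.measurable_ofReal.comp
    (Real.measurable_exp.comp (((measurable_pi_apply v).comp hy).div_const 2)))

private lemma mset (hYC : T_YC) (M : FI K) (h : K) (R : InfinitePlace K → ℝ) (p : Prop) :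
    MeasurableSet {q : ℝ × logSpace K | p ∧ h ≠ 0 ∧ ∀ v, ‖sy (yM K M q.1 q.2) h v‖ ≤ R v} := by
  refine (MeasurableSet.const _).inter ((MeasurableSet.const _).inter ?_)
  have h1 : {q : ℝ × logSpace K | ∀ v, ‖sy (yM K M q.1 q.2) h v‖ ≤ R v} =
      ⋂ v, {q : ℝ × logSpace K | ‖sy (yM K M q.1 q.2) h v‖ ≤ R v} := by
    ext q
    simp
  change MeasurableSet {q : ℝ × logSpace K | ∀ v, ‖sy (yM K M q.1 q.2) h v‖ ≤ R v}
  rw [h1]
  exact MeasurableSet.iInter fun v => measurableSet_le (msy hYC M h v).norm measurable_const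

private lemma ivf_cn (hYC : T_YC) (R : InfinitePlace K → ℝ) : IvF (fun L y => cn L y R) := by
  have := countable_K K
  refine ⟨fun M hM => ?_, fun M y l hM hl => ?_⟩
  · unfold cn
    refine Measurable.tsum fun h => ?_
    exact Measurable.ite (mset hYC M h R _) measurable_const measurable_const
  · change cn (lm l M) y R = cn M (shy l y) R
    unfold cn
    rw [← (Equiv.mulLeft₀ l hl).tsum_eq]
    refine tsum_congr fun h => ?_
    have e : (Equiv.mulLeft₀ l hl) h = l * h := rfl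
    rw [e]
    have hiff : (l * h ∈ lm l M ∧ l * h ≠ 0 ∧ ∀ v, ‖sy y (l * h) v‖ ≤ R v) ↔
        (h ∈ M ∧ h ≠ 0 ∧ ∀ v, ‖sy (shy l y) h v‖ ≤ R v) := by
      rw [mem_iff hl, mul_ne_zero_iff]
      simp only [nsy hl]
      tauto
    by_cases hc : h ∈ M ∧ h ≠ 0 ∧ ∀ v, ‖sy (shy l y) h v‖ ≤ R v
    · rw [if_pos hc, if_pos (hiff.2 hc)]
    · rw [if_neg hc, if_neg (fun h1 => hc (hiff.1 h1))]

private lemma ivf_gs (hYC : T_YC) (f : Ideal (𝓞 K)) : IvF (fun L y => gs f L y) := by
  have := countable_K K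
  refine ⟨fun M hM => ?_, fun M y l hM hl => ?_⟩
  · unfold gs
    refine Measurable.tsum fun h => ?_
    refine Measurable.ite (mset hYC M h (fun _ => 1) _) ?_ measurable_const
    refine Measurable.ennreal_ofReal (measurable_const.mul (Measurable.pow_const ?_ _))
    unfold nv
    exact Finset.measurable_prod _ fun v _ => (msy hYC M h v).norm.pow_const _
  · change gs f (lm l M) y = gs f M (shy l y)
    unfold gs
    rw [← (Equiv.mulLeft₀ l hl).tsum_eq]
    refine tsum_congr fun h => ?_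
    have e : (Equiv.mulLeft₀ l hl) h = l * h := rfl
    rw [e]
    have hiff : (l * h ∈ lm l M ∧ l * h ≠ 0 ∧ ∀ v, ‖sy y (l * h) v‖ ≤ 1) ↔
        (h ∈ M ∧ h ≠ 0 ∧ ∀ v, ‖sy (shy l y) h v‖ ≤ 1) := by
      rw [mem_iff hl, mul_ne_zero_iff]
      simp only [nsy hl]
      tauto
    by_cases hc : h ∈ M ∧ h ≠ 0 ∧ ∀ v, ‖sy (shy l y) h v‖ ≤ 1
    · rw [if_pos hc, if_pos (hiff.2 hc), nv_l hl]
      unfold wf
      rw [idl_lm hl hM hc.1]
    · rw [if_neg hc, if_neg (fun h1 => hc (hiff.1 h1))]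

private lemma absNorm_pos {M : FI K} (hM : M ≠ 0) : 0 < (FractionalIdeal.absNorm M : ℝ) := by
  have h0 := FractionalIdeal.absNorm_nonneg M
  have h1 : FractionalIdeal.absNorm M ≠ 0 := by
    rw [Ne, FractionalIdeal.absNorm_eq_zero_iff]
    exact hM
  have h2 : 0 < FractionalIdeal.absNorm M := lt_of_le_of_ne h0 (Ne.symm h1)
  exact_mod_cast h2

private lemma yM_mul {j M : FI K} (hj : j ≠ 0) (hM : M ≠ 0) (τ : ℝ) (z : logSpace K) :
    yM K M τ z = yM K (j * M) (τ + Real.log (FractionalIdeal.absNorm j : ℝ)) z := by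
  unfold yM
  congr 1
  rw [map_mul, Rat.cast_mul, Real.log_mul (absNorm_pos hj).ne' (absNorm_pos hM).ne']
  ring

end

/-- Target R_IF. -/
theorem pf_R_IF (hCG : U_CG) (hAG : U_AG) (hPK : A_PK) (hMS : P_MS) (hYC : T_YC) : R_IF := by
  intro K _ _ f hf
  refine ⟨ivf_gs hYC f, fun χ μ => ⟨fun M hM => ?_, fun M y l hM hl => ?_⟩, fun R => ivf_cn hYC R,
    fun Φ j hj hΦ => ⟨fun M hM => ?_, fun M y l hM hl => ?_⟩⟩
  · exact ((hMS K f hf χ M 0 0 hM).2 μ).norm.ennreal_ofReal
  · have h1 := SS_lm hCG hAG hPK hf χ hM hl y μ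
    change ENNReal.ofReal ‖SS χ (lm l M) y μ‖ = ENNReal.ofReal ‖SS χ M (shy l y) μ‖
    rw [h1]
  · have h1 := hΦ.meas (j * M) (mul_ne_zero hj hM)
    have h2 : (fun q : ℝ × logSpace K => Φ (j * M) (yM K M q.1 q.2)) =
        (fun q : ℝ × logSpace K => Φ (j * M) (yM K (j * M) q.1 q.2)) ∘
          (fun q : ℝ × logSpace K =>
            (q.1 + Real.log (FractionalIdeal.absNorm j : ℝ), q.2)) := by
      funext q
      simp only [Function.comp]
      rw [yM_mul hj hM]
    change Measurable (fun q : ℝ × logSpace K => Φ (j * M) (yM K M q.1 q.2))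
    rw [h2]
    exact h1.comp ((measurable_fst.add_const _).prodMk measurable_snd)
  · change Φ (j * (FractionalIdeal.spanSingleton (𝓞 K)⁰ l * M)) y = _
    rw [mul_left_comm]
    exact hΦ.inv (j * M) y l (mul_ne_zero hj hM) hl

end Pool.Agent.H92.BH
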