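import Pool.Agent.H29.BH.Targets3
import Pool.Agent.H13.BH.P_IV
import Pool.Agent.H69.BH.P_WB

/-!
# Target R_IG: invariance of the integral over the positions
-/

set_option autoImplicit false

open NumberField NumberField.InfinitePlace NumberField.Units
  NumberField.Units.dirichletUnitTheorem MeasureTheory Set Filter Complex
open scoped nonZeroDivisors ENNReal

namespace Pool.Agent.H92.BH

open Pool.Agent.H25.HK Pool.Agent.H23.LB Pool.Agent.H23.LC Pool.Agent.H29.DW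
open Pool.Agent.H29.BH
open Pool.Agent.H13.BH (lm lm_ne shy yM_lm lm_unit yM_unit exists_bij za)

section

variable {K : Type} [Field K] [NumberField K]

private lemma inv' {Φ : FI K → (InfinitePlace K → ℝ) → ℝ≥0∞} (hΦ : IvF Φ) {M : FI K}
    (hM : M ≠ 0) (y : InfinitePlace K → ℝ) {a : K} (ha : a ≠ 0) :
    Φ (lm a M) y = Φ M (shy a y) := hΦ.inv M y a hM ha

open scoped Classical in
private lemma int_lm' (hYC : T_YC) {Φ : FI K → (InfinitePlace K → ℝ) → ℝ≥0∞} (hΦ : IvF Φ)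
    {M : FI K} (hM : M ≠ 0) {a : K} (ha : a ≠ 0) (T : Set ℝ) :
    ∫⁻ z in Fd K, ∫⁻ τ in T, Φ (lm a M) (yM K (lm a M) τ z) =
      ∫⁻ z in Fd K, ∫⁻ τ in T, Φ M (yM K M τ z) := by
  have h1 := Pool.Agent.H61.GLB.Fd_trans K
    (fun z => ∫⁻ τ in T, Φ M (yM K M τ z)) (fun z l hl => ?_) (za a)
  · rw [← h1]
    refine lintegral_congr fun z => ?_
    refine lintegral_congr fun τ => ?_
    rw [inv' hΦ hM _ ha, yM_lm ha hM]
  · obtain ⟨u, -, rfl⟩ := hl
    refine lintegral_congr fun τ => ?_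
    have h2 := inv' hΦ hM (yM K M τ z)
      (a := (((Additive.toMul u : (𝓞 K)ˣ) : 𝓞 K) : K)) (by simp)
    rw [lm_unit, yM_unit hYC] at h2
    rw [h2]
    rfl

private lemma shift_Icc (G : ℝ → ℝ≥0∞) (s t l : ℝ) :
    ∫⁻ τ in Icc s t, G (τ + l) = ∫⁻ τ in Icc (s + l) (t + l), G τ := by
  have h3 := (measurePreserving_add_right (volume : Measure ℝ) l).setLIntegral_comp_preimage_emb
    (MeasurableEquiv.addRight l).measurableEmbedding G (Icc (s + l) (t + l))
  have h4 : (fun τ => τ + l) ⁻¹' Icc (s + l) (t + l) = Icc s t := by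
    ext τ
    simp
  rw [h4] at h3
  exact h3

end

/-- Target R_IG. -/
theorem pf_R_IG (hRR : T_RR) (hYC : T_YC) : R_IG := by
  intro K _ _ ι ι' _ _ M M' hR hR' Φ hΦ
  have part1 : ∀ (κ κ' : Type) [Fintype κ] [Fintype κ'] (N : κ → FI K) (N' : κ' → FI K),
      Reps K N → Reps K N' → ∀ T : Set ℝ, pint N T Φ = pint N' T Φ := by
    intro κ κ' _ _ N N' hN hN' T
    obtain ⟨e, he, hrc⟩ := exists_bij hN hN'
    unfold pint
    rw [← he.sum_comp]
    refine Finset.sum_congr rfl fun c' _ => ?_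
    obtain ⟨a, ha, h⟩ := hrc c'
    rw [h]
    exact (int_lm' hYC hΦ (hN.1 (e c')) ha T).symm
  refine ⟨fun T _ => part1 ι ι' M M' hR hR' T, fun a s t ha => ?_⟩
  rw [part1 ι ι M (fun c => (a : FI K)⁻¹ * M c) hR
    (Pool.Agent.H69.BH.WB.reps_inv hRR hR ha) (Icc s t)]
  unfold pint
  refine Finset.sum_congr rfl fun c _ => ?_
  refine lintegral_congr fun z => ?_
  simp only [Pool.Agent.H69.BH.WB.yM_inv (hR.1 c) ha]
  exact shift_Icc (fun τ => Φ ((a : FI K)⁻¹ * M c) (yM K (M c) τ z)) s t _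

end Pool.Agent.H92.BH
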